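import Pool.Agent.W953.GC.Low

/-!
# `P/Poly` and `NP/Poly` on few slices, with few NOT gates

The question whether `P/Poly = NP/Poly`, stated for circuits: for every circuit `V` with `S` gates,
variables `x` and guessed bits `y`, does the function that is true at `x` if `V(x, y)` is true for
some `y` have a circuit with `S ^ O(1)` gates? For monotone functions, negations do not help on a
single slice (the inputs with `k` ones; Berkowitz, Valiant), and `log n + O(1)` NOT gates are enough
on all slices (Markov, Fischer).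

Here it is shown that the question is equivalent to the same question for the monotone functions
among these, for circuits with at most `t` NOT gates that have to be correct only on `W` consecutive
slices, as long as `1 ≤ W ≤ K * 2 ^ t`; and that this fails for `W ≥ 2 ^ t * (log n) ^ 3`.
-/

set_option autoImplicit false

namespace Pool.Agent.Results.MP_069684_lc.GuessWindows

open Filter Pool.Agent.H540R2

/-- `V(x, y)` is true for some `y`. -/
def Guess {n m : ℕ} (V : Circuit (n + m)) (x : Fin n → Bool) : Prop :=
  ∃ y : Fin m → Bool, V.eval (Fin.append x y) = true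

/-- the number of ones -/
def ones {n : ℕ} (x : Fin n → Bool) : ℕ := (Finset.univ.filter (fun i => x i = true)).card

/-- `P/Poly = NP/Poly`, stated for circuits: guesses can be removed from circuits of size `S` at the
cost of a polynomial increase of the size. -/
def Equal : Prop := ∃ c : ℕ, ∀ S ≥ 2, ∀ (n m : ℕ) (V : Circuit (n + m)), V.size ≤ S → n ≤ S →
  m ≤ S → ∃ C : Circuit n, C.size ≤ S ^ c ∧ ∀ x, (C.eval x = true ↔ Guess V x)

/-- The same for monotone functions and circuits with at most `t n` NOT gates that have to be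
correct only on any `W n` consecutive slices. -/
def EqualOn (t W : ℕ → ℕ) : Prop := ∃ c : ℕ, ∀ S ≥ 2, ∀ (n m : ℕ) (V : Circuit (n + m)),
  V.size ≤ S → n ≤ S → m ≤ S →
  (∀ x x' : Fin n → Bool, (∀ i, x i ≤ x' i) → Guess V x → Guess V x') →
  ∀ k, ∃ C : Circuit n, C.nots ≤ t n ∧ C.size ≤ S ^ c ∧
    ∀ x, k ≤ ones x → ones x < k + W n → (C.eval x = true ↔ Guess V x)

/-- (1) If `1 ≤ W n ≤ K * 2 ^ t n` for a constant `K` then `EqualOn t W` is equivalent to the
question `Equal`. (2) `EqualOn t W` is false if there are infinitely many numbers `N = n (n - 1) / 2`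
with `2 ^ t N * (log N) ^ 3 ≤ W N` and `2 ^ t N * (log N) ^ 9 ≤ N`. -/
theorem result :
    (∀ (K : ℕ) (t W : ℕ → ℕ), (∀ n, 1 ≤ W n ∧ W n ≤ K * 2 ^ t n) → (EqualOn t W ↔ Equal)) ∧
    (∀ t W : ℕ → ℕ, (∃ᶠ n : ℕ in atTop,
      2 ^ t (n.choose 2) * Nat.log 2 (n.choose 2) ^ 3 ≤ W (n.choose 2) ∧
      2 ^ t (n.choose 2) * Nat.log 2 (n.choose 2) ^ 9 ≤ n.choose 2) → ¬ EqualOn t W) :=
  ⟨fun K t W h => W953.GC.on_iff K t W h, fun t W h => W953.GC.not_on t W h⟩

end Pool.Agent.Results.MP_069684_lc.GuessWindows
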