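import Mathlib
import Pool.Agent.H592R3.Defs
import Pool.Agent.W964.Wd.Alt.Defs
import Pool.Agent.W964.Wd.Alt.Main

/-!
Nonuniform deterministic and nondeterministic computations for ideal parallel random access
machines (priority concurrent writing, concurrent searching of lists of cells, arbitrary instruction
set, unbounded words, unbounded memory, different programs for different processors, another machine
for every size of the input): with `n` guessed bits one step suffices for the satisfiability of CNF
formulas with `n` variables, but deterministic or randomized machines with `2 ^ ((1 - ε) n)`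
processors, and even machines which alternate between existential and universal guesses with
altogether `(1 - ε) n` bits, need `Ω (n / log n)` steps.
-/

set_option autoImplicit false

open SmallDepth Finset Filter Pool.Agent.W964.Wd

namespace Pool.Agent.Results.MP_069684_lc.ParallelGuesses

/-- 1. For all `n` and `M` there is a machine with one existential guess among `2 ^ n`
possibilities, one processor for each clause and lists of length `n`, which decides in one step the
satisfiability of the CNF formulas with `n` variables and `M` clauses.

2. For every `ε > 0` and `K` there is `C > 0` such that the following holds for `n ≥ 2` variables,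
`T ≥ 1` steps, every list `L` of existential and universal quantifiers (no quantifiers: machines
without guesses), width `C (T + |L|) log n ≤ w ≤ n` and `M ≥ n 2 ^ w` clauses. Let `total L` be the
number of possible guesses and let `R` be a randomized alternating machine with the quantifiers `L`,
`P` processors and lists of length at most `2 ^ (K n)`. If
`total L * (P + |L| (2 n M + 1)) ≤ 2 ^ ((1 - ε) n)`, then there is a formula with `n` variables, `M`
clauses and width at most `w` for which `R` gives after `T` steps the right answer to the question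
whether it is satisfiable with probability at most `1 / 2 + 2 ^ (-w / C)`.

3. For `0 < δ < 2`, every `K` and every number of steps `T n = o (n / log n)` there are a width
`w n = O (T n log n) = o (n)` and a number of clauses `M n ≤ n ^ O(T n) = 2 ^ o(n)` such that
randomized alternating machines with `P ≥ 1` processors, lists of length at most `2 ^ (K n)` and at
most `T n` blocks of quantifiers for which the product of `P` and the number of possible guesses is
at most `(2 - δ) ^ n` times a polynomial in `M n` do not decide in `T n` steps with error
probability at most `1 / 3` whether a formula with `n` variables, `M n` clauses and width at most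
`w n` is satisfiable, for all large `n`. -/
theorem result :
    (∀ n M : ℕ, ∃ G : Guess Bool (Fin M × Fin n × Bool) M (Choices [(true, 2 ^ n)]),
      G.base.Lists n ∧ ∀ x, (G.altAnswer 1 x = true ↔ ∃ α, Models x α)) ∧
    (∀ (ε : ℝ) (K : ℕ), 0 < ε → ∃ C : ℝ, 0 < C ∧
      ∀ (n T w M : ℕ) (L : List (Bool × ℕ)), 2 ≤ n → 1 ≤ T → (∀ qb ∈ L, 1 ≤ qb.2) →
      C * (((T + L.length : ℕ) : ℝ) * Real.log n) ≤ w → w ≤ n → n * 2 ^ w ≤ M →
      ∀ (P : ℕ) (R : RAMachine Bool (Fin M × Fin n × Bool) P L),
        ((total L * (P + L.length * (2 * n * M + 1)) : ℕ) : ℝ) ≤ 2 ^ ((1 - ε) * n) →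
        R.Lists (2 ^ (K * n)) →
        ∃ x, WidthLe x w ∧
          R.success T x (∃ α, Models x α) ≤ 1 / 2 + (2 : ℝ) ^ (-((w : ℝ) / C))) ∧
    (∀ (δ : ℝ) (K : ℕ), 0 < δ → δ < 2 → ∀ T : ℕ → ℕ, (∀ n, 1 ≤ T n) →
      (fun n : ℕ => (T n : ℝ) * Real.log n) =o[atTop] (fun n : ℕ => (n : ℝ)) →
      ∃ w M : ℕ → ℕ, (∃ C : ℝ, ∀ n, 2 ≤ n → (w n : ℝ) ≤ C * (T n * Real.log n) ∧
          (M n : ℝ) ≤ (n : ℝ) ^ (C * T n)) ∧
        ∀ c e : ℕ, ∀ᶠ n : ℕ in atTop,
          ∀ (L : List (Bool × ℕ)), L.length ≤ T n → (∀ qb ∈ L, 1 ≤ qb.2) →
          ∀ (P : ℕ) (R : RAMachine Bool (Fin (M n) × Fin n × Bool) P L), 1 ≤ P →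
            ((total L * P : ℕ) : ℝ) ≤ (2 - δ) ^ n * (c * (M n : ℝ) ^ e) →
            R.Lists (2 ^ (K * n)) →
            ∃ x, WidthLe x (w n) ∧ R.success (T n) x (∃ α, Models x α) < 2 / 3) :=
  ⟨alt_upper, fun ε K hε => alt_rand ε hε K, fun δ K hδ hδ2 T hT hTo =>
    alt_asym δ hδ hδ2 K T hT hTo⟩

end Pool.Agent.Results.MP_069684_lc.ParallelGuesses
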