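import Pool.Agent.W901.FC.PolyN

/-!
# `NP/poly = P/poly` and the prediction of answers: the exact threshold is `√ (log m)`

Polynomial time is Mathlib's `Turing.TM2ComputableInPolyTime`, for functions on bit strings;
`InPpoly` is the class of the languages decided in polynomial time with a polynomially long advice
string that depends only on the length of the input, `InNPPoly` the class of the languages in `NP`
with such advice.

A set `A` is `(f, ε)`-predictable with advice (`PredA`) if there are an oracle `X` (an arbitrary set)
and a polynomial-time algorithm with polynomial advice, asking `X` at most `O(log n)` questions, which
computes for every list of `m` questions of length at most `m ^ ε` about membership in `A`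
predictions for a nonempty subset of `s` of them (it may abstain on all the others) such that the
number of right predictions and the number of wrong predictions differ by at least `f m * √ s`.
It is fully `f`-predictable with advice (`FullyPredA`) if this holds for all lists of questions, of
any length, with predictions for all questions. `PredP` and `FullyPredP` are the same without advice.

The theorem, for `ε > 0` and functions `f` with `f m ≤ √ m`.

* If `f m / √ (log m)` tends to infinity then for EVERY set `A`: `A` is in `P/poly` iff `A` is
  `(f, ε)`-predictable with advice iff it is fully `f`-predictable with advice. Hence
  `NP/poly = P/poly` iff some `NP`-hard set is `(f, ε)`-predictable with advice iff all sets in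
  `NP/poly` are fully `f`-predictable with advice.
* If `f m ≤ c √ (log m)` for some constant `c` then every set whatsoever is `(f, ε)`-predictable, even
  without advice.
* If `f m ≤ 1` then every set whatsoever is fully `f`-predictable, even without advice.

Proof of the first part. Trying all answers of `X` one gets polynomially many prediction vectors for
every list, one of which is good. Fix a length `n` and consider a distribution on the strings of this
length, and `m` random strings. The experts are the triples of a prediction vector, a learning rate
`r / (8 m)` and a sign; the weight of an expert is the product of `1 ± r / (8 m)` over the positions
at which it was right or wrong. At position `t` the program knows the `m` strings and the labels of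
the first `t - 1` of them, and its (real valued) opinion is the weighted average of the votes of the
experts. For every list the total gain of the opinions is at least the logarithm of the final weight
of the good vector with the best learning rate, minus the logarithm of the number of experts; the
first is at least `(f m) ^ 2 / 16`, the second is `O(log m)`. By exchangeability some position and
some choice of the other strings give an opinion whose correlation with membership in `A` is at least
`1 / m`. Boosting combines polynomially many of these into a correct decision for all strings of
length `n`. All computations are made with integers.
-/

set_option autoImplicit false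

namespace Pool.Agent.Results.MP_069684_lc.PredictionThreshold

open Filter Pool.Agent.NPC Pool.Agent.W901.AT Pool.Agent.W901.NU
open Pool.Agent.W920.NL (InNPPoly)

theorem result (f : ℕ → ℝ) (ε : ℝ) (hε : 0 < ε) (hf : ∀ m : ℕ, 1 ≤ m → f m ≤ Real.sqrt m) :
    (Tendsto (fun m : ℕ => f m / Real.sqrt (Real.log m)) atTop atTop →
      (∀ A : Set (List Bool), List.TFAE [InPpoly A, PredA f ε A, FullyPredA f A]) ∧
      List.TFAE
        [∀ L : Set (List Bool), InNPPoly L → InPpoly L,
          ∃ A : Set (List Bool), NPHard A ∧ PredA f ε A,
          ∀ A : Set (List Bool), InNPPoly A → FullyPredA f A]) ∧
    (∀ c : ℝ, (∀ m : ℕ, 1 ≤ m → f m ≤ c * Real.sqrt (Real.log m)) →
      ∀ A : Set (List Bool), PredP f ε A) ∧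
    ((∀ m : ℕ, 1 ≤ m → f m ≤ 1) → ∀ A : Set (List Bool), FullyPredP f A) :=
  Pool.Agent.W901.FH.nppoly_threshold f ε hε hf

end Pool.Agent.Results.MP_069684_lc.PredictionThreshold
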