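import Pool.Agent.W896.PD.Sat

/-!
# 3-SAT needs exponentially large randomised pushdown programs in linear time

A pushdown program is a (non-uniform) branching program with a stack: a finite directed graph in
whose nodes an input bit is queried, or a symbol is pushed on the stack, or the top symbol is
popped and determines the next node, or an output is given. The height of the stack and the number
of steps are unlimited, and so is the number of stack symbols. Without restrictions on the number
of queries the programs with polynomially many nodes decide exactly the languages in P/poly (the
characterisation of P by auxiliary pushdown automata with logarithmic space, Cook 1971: a circuit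
is evaluated recursively, with the stack for the pending gates). So P/Poly is different from
NP/Poly if and only if 3-SAT has no pushdown programs with polynomially many nodes.

We show that they need exponentially many nodes if `n = ⌊M / D⌋` bits of the formula with `M`
clauses are queried at most `k n` times on average, for every constant `k`; everything else may be
queried without restriction. The bound holds for families of deterministic programs with one-sided
error of which only a `2 ^ (- n / D)` fraction have to find out that a formula is satisfiable, in
particular for randomised programs, and for nondeterministic programs which guess `n / D` bits.

For branching programs without a stack superlinear lower bounds in sublinear space are due to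
Ajtai and to Beame, Saks, Sun and Vee. The new ingredient is the decomposition of a computation
with a stack of unlimited height into a constant number of pieces with `O(n)` queries each, which
depend on the input only through the answers to these queries and a few nodes
(`Pool.Agent.W896.PD.Der.cut`, `Pool.Agent.W896.PD.blocks`). The combinatorics of rectangles
(`Pool.Agent.H554R2.Lin.main_rect`) and the reduction (`Pool.Agent.H554R2.Cnf.reduction_set`) are
from the starting files.
-/

set_option autoImplicit false

namespace Pool.Agent.Results.MP_069684_lc.PushdownPrograms

open Pool.Agent.H554R2.Sem Pool.Agent.H554R2.Cnf Pool.Agent.W896.PD

/-- For every `k` there is a constant `D` such that for all `n`, `M`, `ℓ` with `D n ≤ M` and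
`D n ≤ 2 ^ ℓ` and for any `n` clauses `a i` of the 3-CNF formulas with `M` clauses and variables
named by words of `ℓ` bits the bits other than the signs of the first literals of these clauses
can be given values `b` such that for every finite family `U r` of deterministic pushdown programs:
if no `U r` outputs `true` on an unsatisfiable formula of the family so obtained (`x i` is the
sign of the first literal of the clause `a i`), and if on every satisfiable one at least a
`2 ^ (- ⌊n / D⌋)` fraction of the `U r` outputs `true` after at most `k n` queries to these `n`
signs (and any number of other queries, and of steps), then some `U r` has at least
`2 ^ ⌊n / D⌋` nodes. -/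
theorem result (k : ℕ) : ∃ D : ℕ, 0 < D ∧ ∀ (n M ℓ : ℕ) (a : Fin n ↪ Fin M), D * n ≤ M →
    D * n ≤ 2 ^ ℓ → ∃ b : Idx M ℓ → Bool, ∀ (R : Type) [Fintype R] [Nonempty R]
      (U : R → PP (Idx M ℓ) Bool),
      (∀ r (x : Pt n) L, (U r).Comp (plug (fun i => sgn ℓ (a i)) b x) L true →
        Sat3 (plug (fun i => sgn ℓ (a i)) b x)) →
      (∀ x : Pt n, Sat3 (plug (fun i => sgn ℓ (a i)) b x) → Nat.card R ≤ 2 ^ (n / D) *
        Nat.card {r // ∃ L, (U r).Comp (plug (fun i => sgn ℓ (a i)) b x) L true ∧
          ∑ i, L.count (sgn ℓ (a i)) ≤ k * n}) →
      ∃ r, 2 ^ (n / D) ≤ Fintype.card (U r).State :=
  finalSatPD k

end Pool.Agent.Results.MP_069684_lc.PushdownPrograms
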